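import Mathlib

set_option autoImplicit false
open MeasureTheory Set Filter Topology

namespace Pool.Agent.Results.MP_935800_an.NoLimit

/-- the class `F^k_d(D)`: `C^k` on the interior of `D`, `|f| ≤ 1` on `D`, and all derivatives
`∂_{i_1} ⋯ ∂_{i_m} f` of order `m ≤ k` bounded by `1` on the interior -/
def F (k : ℕ) {d : ℕ} (D : Set (Fin d → ℝ)) : Set ((Fin d → ℝ) → ℝ) :=
  {f | ContDiffOn ℝ k f (interior D) ∧ (∀ x ∈ D, |f x| ≤ 1) ∧
    ∀ m ≤ k, ∀ i : Fin m → Fin d, ∀ x ∈ interior D,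
      |iteratedFDeriv ℝ m f x fun j => Pi.single (i j) 1| ≤ 1}

/-- the `n`-th minimal worst-case error `e(n, F^k_d(D))` -/
noncomputable def err (k : ℕ) {d : ℕ} (D : Set (Fin d → ℝ)) (n : ℕ) : ENNReal :=
  ⨅ x : Fin n → D, ⨅ φ : (Fin n → ℝ) → ℝ, ⨆ f ∈ F k D,
    ENNReal.ofReal |(∫ y in D, f y) - φ fun j => f (x j)|

/-- cut points -/
noncomputable def a (s : ℝ) (j : ℕ) : ℝ := ((j : ℝ) + 1) ^ (-s)

/-- union of the gaps with index outside `S` -/
def V (s : ℝ) (S : Set ℕ) : Set ℝ := ⋃ j ∈ Sᶜ, Ioo (a s (j + 1)) (a s j)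

/-- the corresponding slabs of the unit cube -/
def U (s : ℝ) (d : ℕ) (S : Set ℕ) : Set (Fin (d + 1) → ℝ) :=
  Set.pi univ fun i => if i = 0 then V s S else Ioo 0 1

variable {s : ℝ}

lemma a_pos (j : ℕ) : 0 < a s j := Real.rpow_pos_of_pos (by positivity) _

lemma a_anti (hs : 0 < s) : Antitone (a s) := fun i j h =>
  Real.rpow_le_rpow_of_nonpos (by positivity) (by simpa using h) (by linarith)

lemma a_zero : a s 0 = 1 := by simp [a]

lemma gap (hs : 0 < s) (j : ℕ) : a s j - a s (j + 1) ≤ s * a s j / (j + 1) := by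
  have hj : (0 : ℝ) < j + 1 := by positivity
  have e : a s (j + 1) = a s j * (1 + 1 / (j + 1)) ^ (-s) := by
    rw [a, a, ← Real.mul_rpow hj.le (by positivity)]
    congr 1
    push_cast
    field_simp
  have h1 : 1 - s / (j + 1) ≤ (1 + 1 / ((j : ℝ) + 1)) ^ (-s) := by
    rw [Real.rpow_def_of_pos (by positivity)]
    have h2 := Real.add_one_le_exp (Real.log (1 + 1 / ((j : ℝ) + 1)) * -s)
    have h3 := Real.log_le_sub_one_of_pos (show 0 < 1 + 1 / ((j : ℝ) + 1) by positivity)
    have h4 := mul_le_mul_of_nonneg_left h3 hs.le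
    rw [add_sub_cancel_left, mul_one_div] at h4
    linarith
  have := mul_le_mul_of_nonneg_left h1 (a_pos (s := s) j).le
  rw [e, mul_comm s, mul_div_assoc]
  linarith

lemma cover (hs : 0 < s) (n : ℕ) {t : ℝ} (ht : t ∈ Ioo 0 (a s n)) (h : t ∉ range (a s)) :
    ∃ j, n ≤ j ∧ t ∈ Ioo (a s (j + 1)) (a s j) := by
  have hlim : Tendsto (a s) atTop (𝓝 0) :=
    (tendsto_rpow_neg_atTop hs).comp (tendsto_atTop_add_const_right _ _ tendsto_natCast_atTop_atTop)
  have hex : ∃ j, a s j ≤ t := (hlim.eventually (ge_mem_nhds ht.1)).exists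
  have h1 := Nat.find_spec hex
  have h2 : n < Nat.find hex := by
    by_contra h3
    linarith [a_anti hs (not_lt.mp h3), ht.2]
  obtain ⟨j, hj⟩ : ∃ j, Nat.find hex = j + 1 := ⟨Nat.find hex - 1, by omega⟩
  refine ⟨j, by omega, lt_of_le_of_ne (hj ▸ h1) fun e => h ⟨_, e⟩, ?_⟩
  exact not_le.mp (Nat.find_min hex (by omega))

lemma V_open (S : Set ℕ) : IsOpen (V s S) := isOpen_biUnion fun _ _ => isOpen_Ioo

lemma U_open (d : ℕ) (S : Set ℕ) : IsOpen (U s d S) :=
  isOpen_set_pi finite_univ fun i _ => by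
    split_ifs
    exacts [V_open S, isOpen_Ioo]

lemma vol_U (d : ℕ) (S : Set ℕ) : volume (U s d S) = volume (V s S) := by
  rw [U, volume_pi_pi, Fin.prod_univ_succ]
  simp

lemma V_sub (hs : 0 < s) (S : Set ℕ) : V s S ⊆ Ioo 0 1 := by
  intro t ht
  obtain ⟨j, -, hj⟩ := mem_iUnion₂.mp ht
  exact ⟨(a_pos _).trans hj.1, hj.2.trans_le ((a_anti hs (Nat.zero_le j)).trans_eq a_zero)⟩

lemma vol_V (hs : 0 < s) (S : Finset ℕ) (n : ℕ) :
    a s n - S.card * (s * a s n / (n + 1)) ≤ volume.real (V s S) := by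
  have hsub : Ioo 0 (a s n) ⊆ (V s S ∪ ⋃ j ∈ S.filter (n ≤ ·), Ioo (a s (j + 1)) (a s j)) ∪
      range (a s) := by
    intro t ht
    by_cases h : t ∈ range (a s)
    · exact Or.inr h
    obtain ⟨j, h1, h2⟩ := cover hs n ht h
    by_cases h3 : j ∈ S
    · exact Or.inl (Or.inr (mem_iUnion₂.mpr ⟨j, Finset.mem_filter.mpr ⟨h3, h1⟩, h2⟩))
    · exact Or.inl (Or.inl (mem_iUnion₂.mpr ⟨j, h3, h2⟩))
  have f1 : volume (V s S) ≠ ⊤ := ((measure_mono (V_sub hs _)).trans_lt measure_Ioo_lt_top).ne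
  have f2 : volume (⋃ j ∈ S.filter (n ≤ ·), Ioo (a s (j + 1)) (a s j)) ≠ ⊤ :=
    (measure_biUnion_lt_top (Finset.finite_toSet _) fun _ _ => measure_Ioo_lt_top).ne
  have f3 : volume (range (a s)) = 0 := (countable_range _).measure_zero _
  have h1 := measureReal_mono hsub (measure_union_ne_top (measure_union_ne_top f1 f2) (by simp [f3]))
  have h2 := h1.trans (measureReal_union_le _ _)
  have h3 := measureReal_union_le (μ := volume) (V s S)
    (⋃ j ∈ S.filter (n ≤ ·), Ioo (a s (j + 1)) (a s j))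
  have h4 := measureReal_biUnion_finset_le (μ := volume) (S.filter (n ≤ ·))
    fun j => Ioo (a s (j + 1)) (a s j)
  have hp := a_pos (s := s) n
  have h5 : ∑ j ∈ S.filter (n ≤ ·), volume.real (Ioo (a s (j + 1)) (a s j)) ≤
      S.card * (s * a s n / (n + 1)) := by
    refine (Finset.sum_le_card_nsmul _ _ (s * a s n / (n + 1)) fun j hj => ?_).trans ?_
    · have hj' := (Finset.mem_filter.mp hj).2
      rw [Real.volume_real_Ioo_of_le (a_anti hs (Nat.le_succ j))]
      refine (gap hs j).trans ?_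
      have := a_anti hs hj'
      gcongr
    · rw [nsmul_eq_mul]
      gcongr
      exact Finset.filter_subset _ _
  rw [Real.volume_real_Ioo_of_le hp.le, measureReal_def volume (range _), f3] at h2
  simp only [ENNReal.toReal_zero] at h2
  linarith

lemma mem_F (hs : 0 < s) (k d : ℕ) (S : Set ℕ) (c : ℝ) (hc : |c| ≤ 1) :
    (U s d S).indicator (fun _ => c) ∈ F k (U s d ∅) := by
  have hloc : ∀ x ∈ U s d ∅, ∃ b : ℝ, |b| ≤ 1 ∧
      (U s d S).indicator (fun _ => c) =ᶠ[𝓝 x] fun _ => b := by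
    intro x hx
    by_cases h : x ∈ U s d S
    · exact ⟨c, hc, Filter.mem_of_superset ((U_open d S).mem_nhds h) fun y hy =>
        indicator_of_mem hy _⟩
    · have h0 : x 0 ∈ V s ∅ := by simpa using hx 0 trivial
      obtain ⟨j, -, hj⟩ := mem_iUnion₂.mp h0
      have hjS : j ∈ S := by
        by_contra h1
        refine h fun i _ => ?_
        by_cases hi : i = 0
        · beta_reduce
          rw [if_pos hi, hi]
          exact mem_iUnion₂.mpr ⟨j, h1, hj⟩
        · simpa [hi] using hx i trivial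
      refine ⟨0, by simp, Filter.mem_of_superset
        ((isOpen_Ioo.preimage (continuous_apply 0)).mem_nhds hj) fun y hy => ?_⟩
      refine indicator_of_notMem (fun h2 => ?_) _
      have h3 : y 0 ∈ V s S := by simpa using h2 0 trivial
      obtain ⟨l, hl, hl'⟩ := mem_iUnion₂.mp h3
      rcases lt_trichotomy j l with h4 | h4 | h4
      · linarith [a_anti hs (Nat.succ_le_of_lt h4), hy.1, hl'.2]
      · exact hl (h4 ▸ hjS)
      · linarith [a_anti hs (Nat.succ_le_of_lt h4), hy.2, hl'.1]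
  rw [F, (U_open d ∅).interior_eq]
  refine ⟨fun x hx => ?_, fun x hx => ?_, fun m _ i x hx => ?_⟩
  · obtain ⟨b, -, hb⟩ := hloc x hx
    exact (contDiffAt_const.congr_of_eventuallyEq hb).contDiffWithinAt
  · obtain ⟨b, h, hb⟩ := hloc x hx
    rw [hb.eq_of_nhds]
    exact h
  · obtain ⟨b, h, hb⟩ := hloc x hx
    rw [(hb.iteratedFDeriv ℝ m).eq_of_nhds]
    rcases Nat.eq_zero_or_pos m with rfl | hm
    · simpa using h
    · rw [iteratedFDeriv_const_of_ne hm.ne']
      simp

theorem result (d k : ℕ) (hd : 1 ≤ d) (hk : 1 ≤ k) : ∃ D : Set (Fin d → ℝ),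
    Bornology.IsBounded D ∧ volume (frontier D) = 0 ∧ volume D = 1 ∧ (∀ n, err k D n ≤ 1) ∧
      Tendsto (fun n : ℕ => (err k D n).toReal * (n : ℝ) ^ ((k : ℝ) / d)) atTop atTop := by
  obtain ⟨d, rfl⟩ : ∃ e, d = e + 1 := ⟨d - 1, by omega⟩
  set s : ℝ := 1 / (2 * ((d + 1 : ℕ) : ℝ)) with hsd
  have hd' : (1 : ℝ) ≤ ((d + 1 : ℕ) : ℝ) := by exact_mod_cast hd
  have hs : 0 < s := by positivity
  have hs2 : s ≤ 1 / 2 := one_div_le_one_div_of_le two_pos (by linarith)
  have hsub : U s d ∅ ⊆ Icc 0 1 := fun x hx => by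
    have : ∀ i, x i ∈ Ioo (0 : ℝ) 1 := fun i => by
      have := hx i trivial
      beta_reduce at this
      by_cases hi : i = 0
      · rw [if_pos hi] at this
        exact V_sub hs _ this
      · rwa [if_neg hi] at this
    exact ⟨fun i => (this i).1.le, fun i => (this i).2.le⟩
  have hcube : volume (Icc (0 : Fin (d + 1) → ℝ) 1) = 1 := by simp [Real.volume_Icc_pi]
  have hvol : volume (U s d ∅) = 1 := by
    refine le_antisymm ((measure_mono hsub).trans_eq hcube) ?_
    have := vol_V hs ∅ 0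
    rw [vol_U]
    simp only [a_zero, Finset.card_empty, Nat.cast_zero, zero_mul, sub_zero, Finset.coe_empty]
      at this
    simpa using ENNReal.ofReal_le_of_le_toReal this
  have hx0 : (U s d ∅).Nonempty := nonempty_of_measure_ne_zero (by rw [hvol]; exact one_ne_zero)
  have hle : ∀ n, err k (U s d ∅) n ≤ 1 := fun n => by
    refine iInf₂_le_of_le (fun _ => ⟨_, hx0.some_mem⟩) 0 (iSup₂_le fun f hf => ?_)
    rw [Pi.zero_apply, sub_zero, ENNReal.ofReal_le_one, ← Real.norm_eq_abs]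
    refine (norm_setIntegral_le_of_norm_le_const (by rw [hvol]; exact ENNReal.one_lt_top)
      hf.2.1).trans ?_
    simp [measureReal_def, hvol]
  refine ⟨U s d ∅, (Metric.isBounded_Icc 0 1).subset hsub, ?_, hvol, hle, ?_⟩
  · rw [(U_open d ∅).frontier_eq]
    refine measure_mono_null (sdiff_subset_sdiff_left (closure_minimal hsub isClosed_Icc)) ?_
    rw [measure_sdiff hsub (U_open d ∅).measurableSet.nullMeasurableSet
      (by rw [hvol]; exact ENNReal.one_ne_top), hcube, hvol, tsub_self]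
  have key : ∀ n : ℕ, a s n / 2 ≤ (err k (U s d ∅) n).toReal := fun n => by
    refine (ENNReal.ofReal_le_iff_le_toReal ((hle n).trans_lt ENNReal.one_lt_top).ne).mp
      (le_iInf₂ fun x φ => ?_)
    have hx : ∀ l, ∃ j, (x l).1 0 ∈ Ioo (a s (j + 1)) (a s j) := fun l => by
      have h0 : (x l).1 0 ∈ V s ∅ := by simpa using (x l).2 0 trivial
      obtain ⟨j, -, hj⟩ := mem_iUnion₂.mp h0
      exact ⟨j, hj⟩
    choose J hJ using hx
    set S : Finset ℕ := Finset.univ.image J
    have hz : ∀ c : ℝ, (fun l => (U s d S).indicator (fun _ => c) (x l)) = 0 := fun c => by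
      ext l
      refine indicator_of_notMem (fun h2 => ?_) _
      have h3 : (x l).1 0 ∈ V s S := by simpa using h2 0 trivial
      obtain ⟨j, hl, hl'⟩ := mem_iUnion₂.mp h3
      rcases lt_trichotomy j (J l) with h4 | h4 | h4
      · linarith [a_anti hs (Nat.succ_le_of_lt h4), (hJ l).2, hl'.1]
      · exact hl (h4 ▸ Finset.mem_image_of_mem J (Finset.mem_univ l))
      · linarith [a_anti hs (Nat.succ_le_of_lt h4), (hJ l).1, hl'.2]
    have hUU : U s d S ⊆ U s d ∅ := pi_mono fun i _ => by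
      split_ifs
      exacts [biUnion_subset_biUnion_left (by simp), subset_rfl]
    have hI : ∀ c : ℝ, ∫ y in U s d ∅, (U s d S).indicator (fun _ => c) y =
        volume.real (V s S) * c := fun c => by
      rw [setIntegral_indicator (U_open d _).measurableSet, inter_eq_right.mpr hUU,
        setIntegral_const, measureReal_def, vol_U, smul_eq_mul, measureReal_def]
    have hv : a s n / 2 ≤ volume.real (V s S) := by
      refine le_trans ?_ (vol_V hs S n)
      have h1 : (S.card : ℝ) ≤ n + 1 := by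
        have : S.card ≤ n := Finset.card_image_le.trans (by simp)
        exact_mod_cast this.trans (Nat.le_succ n)
      have hp := a_pos (s := s) n
      have h2 := mul_le_mul_of_nonneg_right h1 (show 0 ≤ s * a s n / (n + 1) by positivity)
      rw [mul_div_cancel₀ _ (by positivity)] at h2
      nlinarith
    rcases le_total (φ 0) 0 with h | h
    · refine le_iSup₂_of_le _ (mem_F hs k d S 1 (by simp)) (ENNReal.ofReal_le_ofReal ?_)
      rw [hI, hz]
      exact le_abs.mpr (Or.inl (by linarith))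
    · refine le_iSup₂_of_le _ (mem_F hs k d S (-1) (by simp)) (ENNReal.ofReal_le_ofReal ?_)
      rw [hI, hz]
      exact le_abs.mpr (Or.inr (by linarith))
  refine tendsto_atTop_mono' _ ?_ (((tendsto_rpow_atTop hs).comp
    tendsto_natCast_atTop_atTop).atTop_div_const (show (0 : ℝ) < 4 by norm_num))
  filter_upwards [eventually_ge_atTop 1] with n hn
  have hn' : (1 : ℝ) ≤ n := by exact_mod_cast hn
  have h1 : (n : ℝ) ^ (2 * s) ≤ (n : ℝ) ^ ((k : ℝ) / ((d + 1 : ℕ) : ℝ)) := by
    refine Real.rpow_le_rpow_of_exponent_le hn' ?_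
    rw [hsd, mul_one_div, ← div_div, div_self two_ne_zero]
    gcongr
    exact_mod_cast hk
  have h2 : (n : ℝ) ^ (-s) / 2 ≤ a s n := by
    refine le_trans ?_ (Real.rpow_le_rpow_of_nonpos (by positivity)
      (show (n : ℝ) + 1 ≤ 2 * n by linarith) (by linarith))
    rw [Real.mul_rpow zero_le_two (by positivity), div_eq_inv_mul, ← Real.rpow_neg_one]
    gcongr
    · norm_num
    · linarith
  have h3 : (n : ℝ) ^ (-s) * (n : ℝ) ^ (2 * s) = (n : ℝ) ^ s := by
    rw [← Real.rpow_add (by positivity)]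
    congr 1
    ring
  have h4 := mul_le_mul (show (n : ℝ) ^ (-s) / 4 ≤ (err k (U s d ∅) n).toReal by linarith [key n])
    h1 (by positivity) ENNReal.toReal_nonneg
  refine le_trans (le_of_eq ?_) h4
  rw [div_mul_eq_mul_div, h3]
  rfl

end Pool.Agent.Results.MP_935800_an.NoLimit
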